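import Mathlib
import Pool.Agent.H16.DRC

namespace Pool.Agent.Results.MP_3a192b_co.ChiUpper

open Finset

/-- the graph `G(𝒜, ε)` -/
def smallGraph {n m : ℕ} (A : Fin m → Finset (Fin n)) (ε : ℝ) : SimpleGraph (Fin m) where
  Adj i j := i ≠ j ∧ ((A i ∩ A j).card : ℝ) < ε * n
  symm := ⟨fun i j h => ⟨h.1.symm, by rw [inter_comm]; exact h.2⟩⟩
  loopless := ⟨fun _ h => h.1 rfl⟩

theorem result (c δ : ℝ) (hc : 0 < c) (hc1 : c < 1) (hδ : 0 < δ) :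
    ∃ ε₀ : ℝ, 0 < ε₀ ∧ ∃ C : ℝ, ∀ ε : ℝ, 0 < ε → ε ≤ ε₀ →
      ∀ (n m : ℕ) (A : Fin m → Finset (Fin n)), (∀ k, c * n < (A k).card) →
        ∃ k : ℕ, (smallGraph A ε).Colorable k ∧ (k : ℝ) ≤ C * (m : ℝ) ^ δ := by
  have hd : 0 < min δ 1 := lt_min hδ one_pos
  refine ⟨c ^ (1 + 1 / min δ 1), by positivity, 2 ^ (1 + min δ 1) / (c * min δ 1),
    fun ε h0 h1 n m A hA => ?_⟩
  obtain ⟨k, col, k1, k2, k3⟩ := Pool.Agent.H16.DRC.colour A c ε _ hc hc1 hd (min_le_right _ _)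
    h0 h1 hA m univ (by simp)
  refine ⟨k, ⟨SimpleGraph.Coloring.mk (fun i => ⟨col i, k2 i (mem_univ _)⟩) ?_⟩, k1.trans ?_⟩
  · intro i j h e
    exact absurd (k3 i (mem_univ _) j (mem_univ _) h.1 (congrArg Fin.val e)) (not_lt.2 h.2.le)
  · rcases Nat.eq_zero_or_pos m with rfl | hm
    · simp [hd.ne', hδ.ne']
    · have : (1 : ℝ) ≤ m := by exact_mod_cast hm
      gcongr
      exact min_le_left _ _

end Pool.Agent.Results.MP_3a192b_co.ChiUpper
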